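import Mathlib
import Pool.Agent.Work.MP_f2148a_nt.M56.LD.Ev

set_option autoImplicit false

/-!
# MP_f2148a_nt, block AX: the irreducible factors of a form of bounded bidegree
-/

namespace Pool.Agent.Work.MP_f2148a_nt.M56.AX

open Polynomial LD

section swap

variable {R : Type*} [CommRing R]

theorem coeff_swap (f : R[X][X]) (i j : ℕ) :
    ((Bivariate.swap f).coeff i).coeff j = (f.coeff j).coeff i := by
  induction f using Polynomial.induction_on' with
  | add p q hp hq => rw [map_add, coeff_add, coeff_add, coeff_add, coeff_add, hp, hq]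
  | monomial n a =>
    induction a using Polynomial.induction_on' with
    | add p q hp hq =>
      rw [map_add, map_add, coeff_add, coeff_add, coeff_add, coeff_add, hp, hq]
    | monomial m r =>
      rw [Bivariate.swap_monomial_monomial]
      simp only [coeff_monomial]
      by_cases h1 : m = i <;> by_cases h2 : n = j <;> simp [h1, h2, coeff_monomial]

theorem natDegree_swap_le {f : R[X][X]} {a : ℕ} :
    (Bivariate.swap f).natDegree ≤ a ↔ ∀ j, (f.coeff j).natDegree ≤ a := by
  constructor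
  · intro h j
    rw [natDegree_le_iff_coeff_eq_zero]
    intro i hi
    rw [← coeff_swap, coeff_eq_zero_of_natDegree_lt (lt_of_le_of_lt h hi), coeff_zero]
  · intro h
    rw [natDegree_le_iff_coeff_eq_zero]
    intro i hi
    ext j
    rw [coeff_swap, coeff_eq_zero_of_natDegree_lt (lt_of_le_of_lt (h j) hi), coeff_zero]

theorem bd_iff {f : R[X][X]} {a b : ℕ} :
    Bd a b f ↔ f.natDegree ≤ b ∧ (Bivariate.swap f).natDegree ≤ a := by
  rw [natDegree_swap_le]; rfl

theorem ex_degrees (g : R[X][X]) : Ex (Bivariate.swap g).natDegree g.natDegree g := by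
  refine ⟨bd_iff.2 ⟨le_rfl, le_rfl⟩, rfl, ?_⟩
  have hle := (natDegree_swap_le (f := g)).1 le_rfl
  by_cases h0 : (Bivariate.swap g).natDegree = 0
  · exact ⟨0, by have := hle 0; omega⟩
  · have h1 : (Bivariate.swap g).coeff (Bivariate.swap g).natDegree ≠ 0 := by
      rw [coeff_natDegree, leadingCoeff_ne_zero]
      intro h; rw [h, natDegree_zero] at h0; exact h0 rfl
    obtain ⟨j, hj⟩ : ∃ j, ((Bivariate.swap g).coeff (Bivariate.swap g).natDegree).coeff j ≠ 0 := by
      by_contra h
      push Not at h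
      exact h1 (ext fun j => by rw [h j, coeff_zero])
    refine ⟨j, le_antisymm (hle j) ?_⟩
    rw [coeff_swap] at hj
    exact le_natDegree_of_ne_zero hj

theorem ex_iff {g : R[X][X]} {m n : ℕ} :
    Ex m n g ↔ (Bivariate.swap g).natDegree = m ∧ g.natDegree = n := by
  constructor
  · intro h
    refine ⟨le_antisymm (bd_iff.1 h.bd).2 ?_, h.top⟩
    obtain ⟨j, hj⟩ := h.wid
    rw [← hj]
    exact (natDegree_swap_le.1 le_rfl) j
  · rintro ⟨rfl, rfl⟩
    exact ex_degrees g

end swap

/-- the affine value as a ring homomorphism -/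
noncomputable def val (x y : ℚ) : ℤ[X][X] →+* ℚ :=
  (evalRingHom y).comp (mapRingHom (eval₂RingHom (algebraMap ℤ ℚ) x))

theorem ev_eq_val {a b : ℕ} {f : ℤ[X][X]} (hf : Bd a b f) (s t u v : ℤ) (ht : t ≠ 0)
    (hv : v ≠ 0) : ((ev a b f s t u v : ℤ) : ℚ) =
      (t : ℚ) ^ a * (v : ℚ) ^ b * val ((s : ℚ) / t) ((u : ℚ) / v) f := by
  have h1 := ev_map (R := ℤ) (Algebra.ofId ℤ ℚ) a b f s t u v
  have h2 : ∀ x : ℤ, (Algebra.ofId ℤ ℚ) x = (x : ℚ) := fun x => rfl
  rw [h2, h2, h2, h2, h2] at h1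
  rw [← h1, ev_div hf _ _ _ _ (by exact_mod_cast ht) (by exact_mod_cast hv)]
  rfl

theorem ev_zero_iff {a b : ℕ} {f : ℤ[X][X]} (hf : Bd a b f) (s t u v : ℤ) (ht : t ≠ 0)
    (hv : v ≠ 0) : ev a b f s t u v = 0 ↔ val ((s : ℚ) / t) ((u : ℚ) / v) f = 0 := by
  have h1 := ev_eq_val hf s t u v ht hv
  have ht' : (t : ℚ) ≠ 0 := by exact_mod_cast ht
  have hv' : (v : ℚ) ≠ 0 := by exact_mod_cast hv
  constructor
  · intro h
    rw [h, Int.cast_zero] at h1
    rcases mul_eq_zero.1 h1.symm with h | h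
    · rcases mul_eq_zero.1 h with h | h
      · exact absurd h (pow_ne_zero _ ht')
      · exact absurd h (pow_ne_zero _ hv')
    · exact h
  · intro h
    rw [h, mul_zero] at h1
    exact_mod_cast h1

private theorem card_filter_le (s : Multiset ℤ[X][X]) (h0 : ∀ g ∈ s, g ≠ 0) :
    s.prod ≠ 0 ∧ (s.filter fun g => g.natDegree + (Bivariate.swap g).natDegree ≠ 0).card ≤
      s.prod.natDegree + (Bivariate.swap s.prod).natDegree := by
  induction s using Multiset.induction_on with
  | empty => simp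
  | cons a s ih =>
    obtain ⟨h1, h2⟩ := ih fun g hg => h0 g (Multiset.mem_cons_of_mem hg)
    have ha : a ≠ 0 := h0 a (Multiset.mem_cons_self a s)
    have ha' : Bivariate.swap a ≠ 0 := by
      intro h; apply ha
      rw [← Bivariate.swap_swap_apply a, h, map_zero]
    have hs' : Bivariate.swap s.prod ≠ 0 := by
      intro h; apply h1
      rw [← Bivariate.swap_swap_apply s.prod, h, map_zero]
    rw [Multiset.prod_cons]
    refine ⟨mul_ne_zero ha h1, ?_⟩
    rw [natDegree_mul ha h1, map_mul, natDegree_mul ha' hs', Multiset.filter_cons, Multiset.card_add]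
    split_ifs with h
    · rw [Multiset.card_singleton]; omega
    · rw [Multiset.card_zero]; omega

/-- The irreducible factors of a form of bidegree at most `(M, N)`. -/
theorem fac {M N : ℕ} {f : ℤ[X][X]} (hf : f ≠ 0) (hb : Bd M N f) :
    ∃ G : Finset ℤ[X][X], G.card ≤ M + N ∧
      (∀ g ∈ G, Irreducible g ∧ ∃ m n, m ≤ M ∧ n ≤ N ∧ Ex m n g) ∧
      ∀ s t u v : ℤ, t ≠ 0 → v ≠ 0 → ev M N f s t u v = 0 →
        ∃ g ∈ G, ∀ m n, Bd m n g → ev m n g s t u v = 0 := by
  classical
  obtain ⟨hN, hM⟩ := bd_iff.1 hb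
  set F := UniqueFactorizationMonoid.factors f with hF
  have hirr : ∀ g ∈ F, Irreducible g := fun g hg =>
    UniqueFactorizationMonoid.irreducible_of_factor g hg
  have hassoc : Associated F.prod f := UniqueFactorizationMonoid.factors_prod hf
  obtain ⟨hF0, hcard⟩ := card_filter_le F fun g hg => (hirr g hg).ne_zero
  obtain ⟨unit, hunit⟩ := hassoc
  have hf' : Bivariate.swap f ≠ 0 := by
    intro h; apply hf
    rw [← Bivariate.swap_swap_apply f, h, map_zero]
  have hdvd : ∀ g ∈ F, g ∣ f := fun g hg =>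
    (Multiset.dvd_prod hg).trans (Dvd.intro _ hunit)
  have hdeg : ∀ g, g ∣ f → g.natDegree ≤ N ∧ (Bivariate.swap g).natDegree ≤ M := by
    intro g hg
    obtain ⟨c, hc⟩ := hg
    have h1 : Bivariate.swap g ∣ Bivariate.swap f := ⟨Bivariate.swap c, by rw [hc, map_mul]⟩
    exact ⟨(natDegree_le_of_dvd ⟨c, hc⟩ hf).trans hN, (natDegree_le_of_dvd h1 hf').trans hM⟩
  have hprod : F.prod ∣ f := Dvd.intro _ hunit
  refine ⟨(F.filter fun g => g.natDegree + (Bivariate.swap g).natDegree ≠ 0).toFinset, ?_, ?_, ?_⟩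
  · refine (Multiset.toFinset_card_le _).trans (hcard.trans ?_)
    have := hdeg _ hprod
    omega
  · intro g hg
    rw [Multiset.mem_toFinset, Multiset.mem_filter] at hg
    refine ⟨hirr g hg.1, _, _, (hdeg g (hdvd g hg.1)).2, (hdeg g (hdvd g hg.1)).1, ex_degrees g⟩
  · intro s t u v ht hv h0
    rw [ev_zero_iff hb s t u v ht hv, ← hunit, map_mul] at h0
    have h1 : val ((s : ℚ) / t) ((u : ℚ) / v) F.prod = 0 := by
      rcases mul_eq_zero.1 h0 with h | h
      · exact h
      · exact absurd h (unit.isUnit.map _).ne_zero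
    rw [map_multiset_prod, Multiset.prod_eq_zero_iff, Multiset.mem_map] at h1
    obtain ⟨g, hg, hg0⟩ := h1
    refine ⟨g, ?_, fun m n hbd => (ev_zero_iff hbd s t u v ht hv).2 hg0⟩
    rw [Multiset.mem_toFinset, Multiset.mem_filter]
    refine ⟨hg, fun hz => ?_⟩
    -- a constant has no zero
    have hb0 : Bd 0 0 g := bd_iff.2 ⟨by omega, by omega⟩
    have hconst : g = C (C ((g.coeff 0).coeff 0)) := by
      rw [eq_C_of_natDegree_le_zero hb0.1, coeff_C_zero, ← eq_C_of_natDegree_le_zero (hb0.2 0)]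
    rw [hconst] at hg0
    have h2 : (((g.coeff 0).coeff 0 : ℤ) : ℚ) = 0 := by
      simpa [val] using hg0
    have h3 : (g.coeff 0).coeff 0 = 0 := by exact_mod_cast h2
    rw [h3] at hconst
    apply (hirr g hg).ne_zero
    rw [hconst]; simp

end Pool.Agent.Work.MP_f2148a_nt.M56.AX
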