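import Mathlib
import Pool.Agent.Work.MP_f2148a_nt.M56.AX.Fac

set_option autoImplicit false

/-!
# MP_f2148a_nt, block AX: the degenerate bidegrees `(m, 0)` and `(0, n)`
-/

namespace Pool.Agent.Work.MP_f2148a_nt.M56.AX

open Polynomial LD

private theorem irr_of_C {R : Type*} [CommRing R] {p : R[X]} (h : Irreducible (C p : R[X][X])) :
    Irreducible p := by
  constructor
  · intro hu; exact h.not_isUnit (isUnit_C.2 hu)
  · intro a b hab
    rcases h.isUnit_or_isUnit (a := C a) (b := C b) (by rw [hab, C_mul]) with h1 | h1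
    · exact Or.inl (isUnit_C.1 h1)
    · exact Or.inr (isUnit_C.1 h1)

private theorem root_unique {p : ℤ[X]} (hp : Irreducible p) {x y : ℚ}
    (hx : eval₂ (algebraMap ℤ ℚ) x p = 0) (hy : eval₂ (algebraMap ℤ ℚ) y p = 0) : x = y := by
  have hd : p.natDegree ≠ 0 := by
    intro h
    rw [eq_C_of_natDegree_eq_zero h, eval₂_C] at hx
    have h3 : p.coeff 0 = 0 := by
      have : ((p.coeff 0 : ℤ) : ℚ) = 0 := hx
      exact_mod_cast this
    apply hp.ne_zero
    rw [eq_C_of_natDegree_eq_zero h, h3, C_0]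
  have hq : Irreducible (p.map (Int.castRingHom ℚ)) :=
    (IsPrimitive.Int.irreducible_iff_irreducible_map_cast (hp.isPrimitive hd)).1 hp
  have hx' : (X - C x) ∣ p.map (Int.castRingHom ℚ) := by
    rw [dvd_iff_isRoot, IsRoot.def, eval_map]; exact hx
  have hy' : (X - C y) ∣ p.map (Int.castRingHom ℚ) := by
    rw [dvd_iff_isRoot, IsRoot.def, eval_map]; exact hy
  have h1 := (irreducible_X_sub_C x).associated_of_dvd hq hx'
  have h2 := (irreducible_X_sub_C y).associated_of_dvd hq hy'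
  have h3 : (X - C y) ∣ (X - C x) := (h2.trans h1.symm).dvd
  rw [dvd_iff_isRoot, IsRoot.def, eval_sub, eval_X, eval_C] at h3
  linarith

private theorem frac_eq {s t s' t' : ℤ} (ht : t ≠ 0) (ht' : t' ≠ 0)
    (h : (s : ℚ) / t = (s' : ℚ) / t') : s * t' = s' * t := by
  rw [div_eq_div_iff (by exact_mod_cast ht) (by exact_mod_cast ht')] at h
  exact_mod_cast h

/-- bidegree `(m, 0)`: all the zeros have the same `(s : t)` -/
theorem deg_n0 {m : ℕ} {g : ℤ[X][X]} (hg : Irreducible g) (hb : Bd m 0 g) {s t u v s' t' u' v' : ℤ}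
    (ht : t ≠ 0) (hv : v ≠ 0) (ht' : t' ≠ 0) (hv' : v' ≠ 0) (h : ev m 0 g s t u v = 0)
    (h' : ev m 0 g s' t' u' v' = 0) : s * t' = s' * t := by
  have hC := eq_C_of_natDegree_le_zero hb.1
  have h1 : Irreducible (g.coeff 0) := irr_of_C (by rw [← hC]; exact hg)
  have hval : ∀ x y : ℚ, val x y g = eval₂ (algebraMap ℤ ℚ) x (g.coeff 0) := by
    intro x y
    conv_lhs => rw [hC]
    simp only [val, RingHom.coe_comp, Function.comp_apply, coe_mapRingHom, coe_evalRingHom]
    rw [map_C, eval_C]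
    rfl
  rw [ev_zero_iff hb s t u v ht hv, hval] at h
  rw [ev_zero_iff hb s' t' u' v' ht' hv', hval] at h'
  exact frac_eq ht ht' (root_unique h1 h h')

/-- bidegree `(0, n)`: all the zeros have the same `(u : v)` -/
theorem deg_m0 {n : ℕ} {g : ℤ[X][X]} (hg : Irreducible g) (hb : Bd 0 n g) {s t u v s' t' u' v' : ℤ}
    (ht : t ≠ 0) (hv : v ≠ 0) (ht' : t' ≠ 0) (hv' : v' ≠ 0) (h : ev 0 n g s t u v = 0)
    (h' : ev 0 n g s' t' u' v' = 0) : u * v' = u' * v := by
  have hC := eq_C_of_natDegree_le_zero (bd_iff.1 hb).2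
  have h0 : Irreducible (Bivariate.swap g) :=
    (MulEquiv.irreducible_iff (Bivariate.swap (R := ℤ)).toMulEquiv).2 hg
  have h1 : Irreducible ((Bivariate.swap g).coeff 0) := irr_of_C (by rw [← hC]; exact h0)
  have hg' : g = ((Bivariate.swap g).coeff 0).map C := by
    rw [← Bivariate.swap_C, ← hC, Bivariate.swap_swap_apply]
  have hval : ∀ x y : ℚ, val x y g = eval₂ (algebraMap ℤ ℚ) y ((Bivariate.swap g).coeff 0) := by
    intro x y
    conv_lhs => rw [hg']
    simp only [val, RingHom.coe_comp, Function.comp_apply, coe_mapRingHom, coe_evalRingHom]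
    rw [map_map, eval_map]
    congr 1
    ext z
    simp
  rw [ev_zero_iff hb s t u v ht hv, hval] at h
  rw [ev_zero_iff hb s' t' u' v' ht' hv', hval] at h'
  exact frac_eq hv hv' (root_unique h1 h h')

end Pool.Agent.Work.MP_f2148a_nt.M56.AX
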