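import Mathlib

set_option autoImplicit false

/-!
# MP_f2148a_nt, block AX: an integral kernel vector with bounded entries (Cramer)

Take `r` maximal with a nonzero `r × r` minor (rows `φ`, columns `ψ`); `r < |E|`. For a column `e₀` outside
`ψ` the vector of the signed `r × r` minors of the columns `e₀, ψ` (rows `φ`) is a kernel vector: its scalar
product with row `j` is the `(r+1) × (r+1)` minor with the additional row `j`.
-/

namespace Pool.Agent.Work.MP_f2148a_nt.M56.AX

open Matrix

private theorem det_bound {r : ℕ} (A : Matrix (Fin r) (Fin r) ℤ) (B : ℝ)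
    (hA : ∀ i j, |(A i j : ℝ)| ≤ B) : |(A.det : ℝ)| ≤ r.factorial * B ^ r := by
  have h1 : (A.det : ℝ) = (A.map (Int.castRingHom ℝ)).det := by
    rw [← RingHom.mapMatrix_apply, ← RingHom.map_det]
    rfl
  rw [h1, Matrix.det_apply]
  refine (Finset.abs_sum_le_sum_abs _ _).trans ?_
  have h6 : ∀ σ ∈ (Finset.univ : Finset (Equiv.Perm (Fin r))),
      |Equiv.Perm.sign σ • ∏ i, (A.map (Int.castRingHom ℝ)) (σ i) i| ≤ B ^ r := by
    intro σ _
    have h7 : |Equiv.Perm.sign σ • ∏ i, (A.map (Int.castRingHom ℝ)) (σ i) i| =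
        ∏ i, |((A (σ i) i : ℤ) : ℝ)| := by
      rw [Units.smul_def, zsmul_eq_mul, abs_mul, Finset.abs_prod]
      have : |((Equiv.Perm.sign σ : ℤ) : ℝ)| = 1 := by
        rcases Int.units_eq_one_or (Equiv.Perm.sign σ) with h | h <;> simp [h]
      rw [this, one_mul]
      rfl
    rw [h7]
    calc ∏ i, |((A (σ i) i : ℤ) : ℝ)| ≤ ∏ _i : Fin r, B :=
          Finset.prod_le_prod (fun i _ => abs_nonneg _) fun i _ => hA _ _
      _ = B ^ r := by simp
  refine (Finset.sum_le_sum h6).trans (le_of_eq ?_)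
  rw [Finset.sum_const, Finset.card_univ, Fintype.card_perm, nsmul_eq_mul, Fintype.card_fin]

/-- A nonzero kernel vector with bounded entries. -/
theorem ker {ι E : Type*} [Fintype E] [DecidableEq E] [Nonempty E] (V : ι → E → ℤ) (B : ℝ)
    (hB : 1 ≤ B) (hV : ∀ j e, |(V j e : ℝ)| ≤ B)
    (hdet : ∀ φ : E → ι, Matrix.det (Matrix.of fun e e' => V (φ e) e') = 0) :
    ∃ f : E → ℤ, f ≠ 0 ∧ (∀ j, ∑ e, V j e * f e = 0) ∧
      ∀ e, |(f e : ℝ)| ≤ (Fintype.card E).factorial * B ^ Fintype.card E := by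
  classical
  let Q : ℕ → Prop := fun r => ∃ (φ : Fin r → ι) (ψ : Fin r → E),
    (Matrix.of fun a b => V (φ a) (ψ b)).det ≠ 0
  have hinj : ∀ (r : ℕ) (φ : Fin r → ι) (ψ : Fin r → E),
      (Matrix.of fun a b => V (φ a) (ψ b)).det ≠ 0 → Function.Injective ψ := by
    intro r φ ψ h a b hab
    by_contra hne
    exact h (Matrix.det_zero_of_column_eq hne fun j => by simp [hab])
  have hcard : ∀ r, Q r → r < Fintype.card E := by
    rintro r ⟨φ, ψ, h⟩
    have h1 := Fintype.card_le_of_injective ψ (hinj r φ ψ h)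
    rw [Fintype.card_fin] at h1
    refine lt_of_le_of_ne h1 fun hr => h ?_
    have hbij : Function.Bijective ψ :=
      (Fintype.bijective_iff_injective_and_card ψ).2 ⟨hinj r φ ψ h, by rw [Fintype.card_fin, hr]⟩
    let σ : Fin r ≃ E := Equiv.ofBijective ψ hbij
    have h2 := hdet (fun e => φ (σ.symm e))
    have h3 : (Matrix.of fun a b => V (φ a) (ψ b)) =
        (Matrix.of fun e e' => V (φ (σ.symm e)) e').submatrix σ σ := by
      refine Matrix.ext fun a b => ?_
      simp only [Matrix.of_apply, Matrix.submatrix_apply, Equiv.symm_apply_apply]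
      rfl
    rw [h3, Matrix.det_submatrix_equiv_self, h2]
  have h0 : Q 0 := by
    refine ⟨Fin.elim0, Fin.elim0, ?_⟩
    simp
  obtain ⟨r, hr, hmax⟩ : ∃ r, Q r ∧ ∀ r', Q r' → r' ≤ r := by
    have hne : ((Finset.range (Fintype.card E)).filter Q).Nonempty :=
      ⟨0, Finset.mem_filter.2 ⟨Finset.mem_range.2 (hcard 0 h0), h0⟩⟩
    refine ⟨_, (Finset.mem_filter.1 (Finset.max'_mem _ hne)).2, fun r' hr' => ?_⟩
    exact Finset.le_max' _ _ (Finset.mem_filter.2 ⟨Finset.mem_range.2 (hcard r' hr'), hr'⟩)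
  obtain ⟨φ, ψ, hdne⟩ := hr
  have hrE := hcard r ⟨φ, ψ, hdne⟩
  obtain ⟨e₀, he₀⟩ : ∃ e₀, ∀ a, ψ a ≠ e₀ := by
    by_contra hcon
    push Not at hcon
    have : Function.Surjective ψ := hcon
    have := Fintype.card_le_of_surjective ψ this
    rw [Fintype.card_fin] at this
    omega
  let ψ' : Fin (r + 1) → E := Fin.cons e₀ ψ
  have hψ' : Function.Injective ψ' := by
    rw [Fin.cons_injective_iff]
    exact ⟨fun ⟨a, ha⟩ => he₀ a ha, hinj r φ ψ hdne⟩
  let mn : Fin (r + 1) → ℤ := fun k =>
    (-1) ^ (k : ℕ) * (Matrix.of fun a b => V (φ a) (ψ' (k.succAbove b))).det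
  let f : E → ℤ := fun e => ∑ k : Fin (r + 1), if ψ' k = e then mn k else 0
  have hf : ∀ k, f (ψ' k) = mn k := by
    intro k
    show ∑ k' : Fin (r + 1), (if ψ' k' = ψ' k then mn k' else 0) = mn k
    rw [Finset.sum_eq_single k]
    · rw [if_pos rfl]
    · intro k' _ hk'
      rw [if_neg fun h => hk' (hψ' h)]
    · intro h
      exact absurd (Finset.mem_univ k) h
  refine ⟨f, ?_, ?_, ?_⟩
  · intro h
    have h1 := hf 0
    rw [h] at h1
    have h2 : mn 0 = (Matrix.of fun a b => V (φ a) (ψ b)).det := by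
      show (-1) ^ ((0 : Fin (r + 1)) : ℕ) *
        (Matrix.of fun a b => V (φ a) (ψ' ((0 : Fin (r + 1)).succAbove b))).det = _
      have h3 : (Matrix.of fun a b => V (φ a) (ψ' ((0 : Fin (r + 1)).succAbove b))) =
          Matrix.of fun a b => V (φ a) (ψ b) := by
        refine Matrix.ext fun a b => ?_
        simp only [Matrix.of_apply, Fin.zero_succAbove]
        rfl
      rw [h3]
      simp
    rw [h2] at h1
    exact hdne h1.symm
  · intro j
    have h1 : ∑ e, V j e * f e = ∑ k : Fin (r + 1), V j (ψ' k) * mn k := by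
      show ∑ e, V j e * (∑ k : Fin (r + 1), if ψ' k = e then mn k else 0) = _
      simp only [Finset.mul_sum, mul_ite, mul_zero]
      rw [Finset.sum_comm]
      refine Finset.sum_congr rfl fun k _ => ?_
      rw [Finset.sum_ite_eq]
      simp
    rw [h1]
    have h2 : (Matrix.of fun (a b : Fin (r + 1)) =>
        V ((Fin.cons j φ : Fin (r + 1) → ι) a) (ψ' b)).det = 0 := by
      by_contra hne
      have := hmax (r + 1) ⟨_, _, hne⟩
      omega
    rw [Matrix.det_succ_row_zero] at h2
    rw [← h2]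
    refine Finset.sum_congr rfl fun k _ => ?_
    show V j (ψ' k) * ((-1) ^ (k : ℕ) * (Matrix.of fun a b => V (φ a) (ψ' (k.succAbove b))).det) = _
    have h3 : ((Matrix.of fun (a b : Fin (r + 1)) =>
        V ((Fin.cons j φ : Fin (r + 1) → ι) a) (ψ' b)).submatrix Fin.succ k.succAbove) =
        Matrix.of fun a b => V (φ a) (ψ' (k.succAbove b)) := by
      refine Matrix.ext fun a b => ?_
      simp only [Matrix.submatrix_apply, Matrix.of_apply, Fin.cons_succ]
    rw [h3]
    simp only [Matrix.of_apply, Fin.cons_zero]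
    ring
  · intro e
    have hB0 : 0 ≤ B := by linarith
    by_cases he : ∃ k, ψ' k = e
    · obtain ⟨k, rfl⟩ := he
      rw [hf]
      have h1 : |((mn k : ℤ) : ℝ)| =
          |(((Matrix.of fun a b => V (φ a) (ψ' (k.succAbove b))).det : ℤ) : ℝ)| := by
        show |(((-1) ^ (k : ℕ) * (Matrix.of fun a b => V (φ a) (ψ' (k.succAbove b))).det : ℤ) : ℝ)| = _
        push_cast
        rw [abs_mul, abs_pow, abs_neg, abs_one, one_pow, one_mul]
      rw [h1]
      refine (det_bound _ B fun i j => hV _ _).trans ?_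
      have h2 : (r.factorial : ℝ) ≤ (Fintype.card E).factorial := by
        exact_mod_cast Nat.factorial_le hrE.le
      exact mul_le_mul h2 (pow_le_pow_right₀ hB hrE.le) (by positivity) (by positivity)
    · have : f e = 0 := by
        show ∑ k : Fin (r + 1), (if ψ' k = e then mn k else 0) = 0
        refine Finset.sum_eq_zero fun k _ => ?_
        rw [if_neg fun h => he ⟨k, h⟩]
      rw [this]
      simp only [Int.cast_zero, abs_zero]
      positivity

end Pool.Agent.Work.MP_f2148a_nt.M56.AX
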