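import Mathlib

set_option autoImplicit false

/-!
# MP_f2148a_nt, block AX: the sum of the `k` smallest weights `a i + b j` (PUBLIC, also for NUM1 / LD)

`∑_{(i,j) ∈ T} (a i + b j) ≥ (2/3) √(2ab) k^(3/2) - (a+b) k`, `k = |T|`.

Proof. `a = 0` or `b = 0` is trivial (left side `≤ 0`). Put `τ = √(2abk) - (a+b)`, `w(i,j) = ai+bj`.
If `τ < 0` the left side is `≤ τ k ≤ 0`. Otherwise `w ≥ τ - (τ-w)⁺` gives
`∑_T w ≥ τ k - ∑_T (τ-w)⁺` and `∑_T (τ-w)⁺ ≤ ∑_{i,j<n} (τ-ai-bj)⁺ ≤ (τ+a+b)³/(6ab)`: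
`∑_{j<n} (t-bj)⁺ ≤ (t+b)²/(2b)` for `t ≥ 0` (telescoping, `((t+b)²-t²)/(2b) ≥ t`; `0` for `t < 0`), and
`∑_{i<n} [τ-ai ≥ 0] (τ-ai+b)²/(2b) ≤ (τ+a+b)³/(6ab)` (telescoping, `(y+a+b)³-(y+b)³ ≥ 3a(y+b)²`).
With `y = √(2abk)`: `τ k - y³/(6ab) = y k - y k/3 - (a+b)k`.
-/

namespace Pool.Agent.Work.MP_f2148a_nt.M56.AX

/-- telescoping -/
private theorem tele (a : ℝ) (g G : ℝ → ℝ) (h : ∀ y, g y ≤ G y - G (y - a)) (τ : ℝ)
    (n : ℕ) : ∑ i ∈ Finset.range n, g (τ - a * i) ≤ G τ - G (τ - a * n) := by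
  induction n with
  | zero => simp
  | succ n ih =>
    rw [Finset.sum_range_succ]
    have := h (τ - a * n)
    have e : τ - a * n - a = τ - a * ((n + 1 : ℕ) : ℝ) := by push_cast; ring
    rw [e] at this
    linarith

private theorem one_dim (b : ℝ) (hb : 0 < b) (t : ℝ) (n : ℕ) :
    ∑ j ∈ Finset.range n, max (t - b * j) 0 ≤ if 0 ≤ t then (t + b) ^ 2 / (2 * b) else 0 := by
  split_ifs with ht
  · let G : ℝ → ℝ := fun y => (max (y + b) 0) ^ 2 / (2 * b)
    have hG : ∀ y, 0 ≤ G y := fun y => by positivity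
    have h := tele b (fun y => max y 0) G (fun y => by
      show max y 0 ≤ (max (y + b) 0) ^ 2 / (2 * b) - (max (y - b + b) 0) ^ 2 / (2 * b)
      rw [sub_add_cancel, ← sub_div, le_div_iff₀ (by positivity)]
      rcases le_total 0 y with hy | hy
      · rw [max_eq_left hy, max_eq_left (by linarith : (0:ℝ) ≤ y + b)]
        nlinarith
      · rw [max_eq_right hy]
        nlinarith [sq_nonneg (max (y + b) 0)]) t n
    refine h.trans ?_
    have h2 : 0 ≤ G (t - b * n) := hG _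
    have h3 : G t = (t + b) ^ 2 / (2 * b) := by
      show (max (t + b) 0) ^ 2 / (2 * b) = _
      rw [max_eq_left (by linarith : (0:ℝ) ≤ t + b)]
    linarith
  · refine le_of_eq (Finset.sum_eq_zero fun j _ => ?_)
    rw [not_le] at ht
    refine max_eq_right ?_
    have : 0 ≤ b * (j : ℝ) := by positivity
    linarith

private theorem two_dim (a b : ℝ) (ha : 0 < a) (hb : 0 < b) (τ : ℝ) (hτ : 0 ≤ τ) (n : ℕ) :
    ∑ i ∈ Finset.range n, ∑ j ∈ Finset.range n, max (τ - (a * i + b * j)) 0 ≤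
      (τ + a + b) ^ 3 / (6 * a * b) := by
  let g : ℝ → ℝ := fun y => if 0 ≤ y then (y + b) ^ 2 / (2 * b) else 0
  let G : ℝ → ℝ := fun y => (max (y + a + b) 0) ^ 3 / (6 * a * b)
  have hG : ∀ y, 0 ≤ G y := fun y => by positivity
  have h := tele a g G (fun y => by
    show (if 0 ≤ y then (y + b) ^ 2 / (2 * b) else 0) ≤
      (max (y + a + b) 0) ^ 3 / (6 * a * b) - (max (y - a + a + b) 0) ^ 3 / (6 * a * b)
    rw [sub_add_cancel, ← sub_div]
    split_ifs with hy
    · rw [max_eq_left (by linarith : (0:ℝ) ≤ y + a + b), max_eq_left (by linarith : (0:ℝ) ≤ y + b),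
        div_le_div_iff₀ (by positivity) (by positivity)]
      have h1 : 3 * a * (y + b) ^ 2 ≤ (y + a + b) ^ 3 - (y + b) ^ 3 := by
        have : (y + a + b) ^ 3 - (y + b) ^ 3 - 3 * a * (y + b) ^ 2 =
            3 * (y + b) * a ^ 2 + a ^ 3 := by ring
        have : 0 ≤ 3 * (y + b) * a ^ 2 + a ^ 3 := by positivity
        linarith
      nlinarith
    · refine div_nonneg (sub_nonneg.2 ?_) (by positivity)
      exact pow_le_pow_left₀ (le_max_right _ _) (max_le_max_right 0 (by linarith)) 3) τ n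
  have h1 : ∑ i ∈ Finset.range n, ∑ j ∈ Finset.range n, max (τ - (a * i + b * j)) 0 ≤
      ∑ i ∈ Finset.range n, g (τ - a * i) := by
    refine Finset.sum_le_sum fun i _ => ?_
    have := one_dim b hb (τ - a * i) n
    refine le_trans (le_of_eq ?_) this
    refine Finset.sum_congr rfl fun j _ => ?_
    congr 1
    ring
  have h3 : G τ = (τ + a + b) ^ 3 / (6 * a * b) := by
    show (max (τ + a + b) 0) ^ 3 / (6 * a * b) = _
    rw [max_eq_left (by linarith : (0:ℝ) ≤ τ + a + b)]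
  have h2 := hG (τ - a * n)
  linarith

/-- The sum of `k` distinct weights `a i + b j`. -/
theorem low (a b : ℝ) (ha : 0 ≤ a) (hb : 0 ≤ b) (T : Finset (ℕ × ℕ)) :
    2 / 3 * Real.sqrt (2 * a * b) * (T.card * Real.sqrt T.card) - (a + b) * T.card ≤
      ∑ x ∈ T, (a * x.1 + b * x.2) := by
  have hS : 0 ≤ ∑ x ∈ T, (a * x.1 + b * x.2) := Finset.sum_nonneg fun x _ => by positivity
  have hk : (0 : ℝ) ≤ (T.card : ℝ) := by positivity
  rcases ha.eq_or_lt with h | ha
  · rw [← h] at hS ⊢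
    simp only [mul_zero, zero_mul, Real.sqrt_zero, zero_add] at hS ⊢
    nlinarith
  rcases hb.eq_or_lt with h | hb
  · rw [← h] at hS ⊢
    simp only [mul_zero, zero_mul, Real.sqrt_zero, add_zero] at hS ⊢
    nlinarith
  obtain ⟨k, hkd⟩ : ∃ k : ℝ, k = T.card := ⟨_, rfl⟩
  rw [← hkd] at hk ⊢
  set y := Real.sqrt (2 * a * b) * Real.sqrt k with hy
  have hy0 : 0 ≤ y := by positivity
  have hy2 : y ^ 2 = 2 * a * b * k := by
    rw [hy, mul_pow, Real.sq_sqrt (by positivity), Real.sq_sqrt hk]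
  have e1 : 2 / 3 * Real.sqrt (2 * a * b) * (k * Real.sqrt k) = 2 / 3 * y * k := by
    rw [hy]; ring
  rw [e1]
  rcases lt_or_ge (y - (a + b)) 0 with hneg | hpos
  · nlinarith
  · have h1 : ∀ x ∈ T, (y - (a + b)) - max ((y - (a + b)) - (a * x.1 + b * x.2)) 0 ≤
        a * x.1 + b * x.2 := by
      intro x _
      have := le_max_left ((y - (a + b)) - (a * x.1 + b * x.2)) 0
      linarith
    have h2 := Finset.sum_le_sum h1
    rw [Finset.sum_sub_distrib, Finset.sum_const, nsmul_eq_mul, ← hkd] at h2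
    obtain ⟨n, hn⟩ : ∃ n : ℕ, T ⊆ Finset.range n ×ˢ Finset.range n := by
      refine ⟨T.sup (fun x => x.1 + x.2) + 1, fun x hx => ?_⟩
      have h3 : x.1 + x.2 ≤ T.sup (fun x => x.1 + x.2) := Finset.le_sup (f := fun x : ℕ × ℕ => x.1 + x.2) hx
      simp only [Finset.mem_product, Finset.mem_range]
      omega
    have h3 : ∑ x ∈ T, max ((y - (a + b)) - (a * x.1 + b * x.2)) 0 ≤
        (y - (a + b) + a + b) ^ 3 / (6 * a * b) := by
      refine le_trans ?_ (two_dim a b ha hb (y - (a + b)) hpos n)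
      rw [← Finset.sum_product' (Finset.range n) (Finset.range n)
        (fun i j => max ((y - (a + b)) - (a * (i : ℝ) + b * (j : ℝ))) 0)]
      exact Finset.sum_le_sum_of_subset_of_nonneg hn fun x _ _ => le_max_right _ _
    have e2 : (y - (a + b) + a + b) ^ 3 / (6 * a * b) = y * k / 3 := by
      have e3 : (y - (a + b) + a + b) ^ 3 = y * y ^ 2 := by ring
      rw [e3, hy2]
      field_simp
      ring
    rw [e2] at h3
    linarith

end Pool.Agent.Work.MP_f2148a_nt.M56.AX
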