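import Mathlib

set_option autoImplicit false

/-!
# MP_f2148a_nt, block AX: upper bound of a determinant by weights (Cauchy-Binet)

Entries `m_(jk) = ∑_x φ_j(x) c_k(x)`, `|φ_j(x)| ≤ R_j w(x)`, `∑_x |c_k(x)| ≤ N_k`: expand the columns
(multilinearity); non injective choices of monomials vanish (two proportional columns).
-/

namespace Pool.Agent.Work.MP_f2148a_nt.M56.AX

/-- Upper bound of a determinant. -/
theorem up {ι X : Type*} [Fintype ι] [DecidableEq ι] [DecidableEq X] (S : Finset X)
    (φ : ι → X → ℝ) (c : X → ι → ℝ) (R N : ι → ℝ) (w : X → ℝ) (B : ℝ)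
    (hR : ∀ j, 0 ≤ R j) (hφ : ∀ j, ∀ x ∈ S, |φ j x| ≤ R j * w x)
    (hc : ∀ k, ∑ x ∈ S, |c x k| ≤ N k)
    (hB : ∀ T ⊆ S, T.card = Fintype.card ι → ∏ x ∈ T, w x ≤ B) (hB0 : 0 ≤ B) :
    |Matrix.det (Matrix.of fun j k => ∑ x ∈ S, φ j x * c x k)| ≤
      (Fintype.card ι).factorial * (∏ j, R j) * (∏ k, N k) * B := by
  classical
  have hR0 : 0 ≤ ∏ j, R j := Finset.prod_nonneg fun j _ => hR j
  -- expansion of the determinant
  have e1 : Matrix.det (Matrix.of fun j k => ∑ x ∈ S, φ j x * c x k) =
      ∑ f ∈ Fintype.piFinset (fun _ : ι => S),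
        (∏ k, c (f k) k) * Matrix.det (Matrix.of fun j k => φ j (f k)) := by
    rw [← Matrix.det_transpose]
    have h1 : (Matrix.of fun j k => ∑ x ∈ S, φ j x * c x k).transpose =
        fun k => ∑ x ∈ S, c x k • (fun j => φ j x) := by
      funext k j
      simp only [Matrix.transpose_apply, Matrix.of_apply, Finset.sum_apply, Pi.smul_apply, smul_eq_mul]
      exact Finset.sum_congr rfl fun x _ => mul_comm _ _
    rw [h1]
    have h2 := (Matrix.detRowAlternating (R := ℝ) (n := ι)).toMultilinearMap.map_sum_finset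
      (fun k x => c x k • (fun j => φ j x)) (fun _ => S)
    have h3 : Matrix.det (fun k => ∑ x ∈ S, c x k • (fun j => φ j x) : Matrix ι ι ℝ) =
      (Matrix.detRowAlternating (R := ℝ) (n := ι)).toMultilinearMap
        (fun k => ∑ x ∈ S, c x k • (fun j => φ j x)) := rfl
    rw [h3, h2]
    refine Finset.sum_congr rfl fun f _ => ?_
    have h4 := (Matrix.detRowAlternating (R := ℝ) (n := ι)).toMultilinearMap.map_smul_univ
      (fun k => c (f k) k) (fun k j => φ j (f k))
    rw [h4, smul_eq_mul]
    congr 1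
    exact Matrix.det_transpose (Matrix.of fun j k => φ j (f k))
  rw [e1]
  refine (Finset.abs_sum_le_sum_abs _ _).trans ?_
  have key : ∀ f ∈ Fintype.piFinset (fun _ : ι => S),
      |(∏ k, c (f k) k) * Matrix.det (Matrix.of fun j k => φ j (f k))| ≤
        (∏ k, |c (f k) k|) * ((Fintype.card ι).factorial * (∏ j, R j) * B) := by
    intro f hf
    rw [Fintype.mem_piFinset] at hf
    rw [abs_mul, Finset.abs_prod]
    refine mul_le_mul_of_nonneg_left ?_ (Finset.prod_nonneg fun k _ => abs_nonneg _)
    by_cases hi : Function.Injective f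
    · have h5 : ∏ k, w (f k) ≤ B := by
        have := hB (Finset.univ.image f) (fun x hx => by
          obtain ⟨k, _, rfl⟩ := Finset.mem_image.1 hx
          exact hf k) (by rw [Finset.card_image_of_injective _ hi, Finset.card_univ])
        rwa [Finset.prod_image fun x _ y _ h => hi h] at this
      rw [Matrix.det_apply]
      refine (Finset.abs_sum_le_sum_abs _ _).trans ?_
      have h6 : ∀ σ ∈ (Finset.univ : Finset (Equiv.Perm ι)),
          |Equiv.Perm.sign σ • ∏ i, (Matrix.of fun j k => φ j (f k)) (σ i) i| ≤ (∏ j, R j) * B := by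
        intro σ _
        have h7 : |Equiv.Perm.sign σ • ∏ i, (Matrix.of fun j k => φ j (f k)) (σ i) i| =
            ∏ i, |φ (σ i) (f i)| := by
          rw [Units.smul_def, zsmul_eq_mul, abs_mul, Finset.abs_prod]
          have : |((Equiv.Perm.sign σ : ℤ) : ℝ)| = 1 := by
            rcases Int.units_eq_one_or (Equiv.Perm.sign σ) with h | h <;> simp [h]
          rw [this, one_mul]
          rfl
        rw [h7]
        calc ∏ i, |φ (σ i) (f i)| ≤ ∏ i, (R (σ i) * w (f i)) :=
              Finset.prod_le_prod (fun i _ => abs_nonneg _) fun i _ => hφ _ _ (hf i)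
          _ = (∏ j, R j) * ∏ i, w (f i) := by
              rw [Finset.prod_mul_distrib, Equiv.prod_comp σ R]
          _ ≤ (∏ j, R j) * B := mul_le_mul_of_nonneg_left h5 hR0
      refine (Finset.sum_le_sum h6).trans (le_of_eq ?_)
      rw [Finset.sum_const, Finset.card_univ, Fintype.card_perm, nsmul_eq_mul, mul_assoc]
    · have h8 : Matrix.det (Matrix.of fun j k => φ j (f k)) = 0 := by
        simp only [Function.Injective] at hi
        push Not at hi
        obtain ⟨a, b, hab, hne⟩ := hi
        exact Matrix.det_zero_of_column_eq hne fun j => by simp [hab]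
      rw [h8, abs_zero]
      positivity
  refine (Finset.sum_le_sum key).trans ?_
  rw [← Finset.sum_mul]
  have h9 : ∑ f ∈ Fintype.piFinset (fun _ : ι => S), ∏ k, |c (f k) k| = ∏ k, ∑ x ∈ S, |c x k| := by
    rw [Finset.prod_univ_sum]
  rw [h9]
  have h10 : ∏ k, ∑ x ∈ S, |c x k| ≤ ∏ k, N k :=
    Finset.prod_le_prod (fun k _ => Finset.sum_nonneg fun x _ => abs_nonneg _) fun k _ => hc k
  calc (∏ k, ∑ x ∈ S, |c x k|) * ((Fintype.card ι).factorial * (∏ j, R j) * B) ≤
        (∏ k, N k) * ((Fintype.card ι).factorial * (∏ j, R j) * B) :=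
        mul_le_mul_of_nonneg_right h10 (by positivity)
    _ = _ := by ring

end Pool.Agent.Work.MP_f2148a_nt.M56.AX
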