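import Mathlib
import Pool.Agent.Work.MP_f2148a_nt.M56.AX.Fac
import Pool.Agent.Work.MP_f2148a_nt.M56.AX.Low
import Pool.Agent.Work.MP_f2148a_nt.M56.LD.Axf

set_option autoImplicit false

/-!
# MP_f2148a_nt, block AX: the auxiliary form, final statement

All exponents in units of `log K = Λ`: `ρ = K ^ (-w₀)`, `γ = K ^ (-b)`, `κ₀ = K ^ κe`, `θ₀ = K ^ l`, and
`w₀ b ≥ (9/2 + ε) κe l`. All the points lie on a bounded number of irreducible curves of bounded bidegree.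
-/

namespace Pool.Agent.Work.MP_f2148a_nt.M56.AX

open Polynomial LD

/-- the numerical inequality -/
theorem num {B ε w₀ b κe l c : ℝ} (hc : 0 < c) (hcε : (3 + c) ^ 2 ≤ 9 + 2 * ε)
    (hB : 0 < B) (hw : w₀ ≤ B) (hb : b ≤ B) (hb0 : 0 ≤ w₀ * b) (hκ : κe ≤ B) (hκ0 : 0 < κe)
    (hl : 1 / B ≤ l) (h : (9 / 2 + ε) * (κe * l) ≤ w₀ * b) {M N : ℕ}
    (hN : 3 / 2 * (3 * B + 1) * B / c ≤ N) (hM : (N : ℝ) * l / κe ≤ M)
    (hM' : (M : ℝ) ≤ N * l / κe + 1) :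
    (κe * M + l * N) * (((M + 1) * (N + 1) : ℕ) : ℝ) -
      (2 / 3 * √(2 * (w₀ * b)) * ((((M + 1) * (N + 1) : ℕ) : ℝ) * √(((M + 1) * (N + 1) : ℕ) : ℝ)) -
        (w₀ + b) * (((M + 1) * (N + 1) : ℕ) : ℝ)) ≤ -1 := by
  have hl0 : 0 < l := lt_of_lt_of_le (by positivity) hl
  set D : ℝ := (((M + 1) * (N + 1) : ℕ) : ℝ) with hD
  have hDe : D = ((M : ℝ) + 1) * (N + 1) := by rw [hD]; push_cast; ring
  have hD1 : 1 ≤ D := by
    rw [hDe]
    have h1 : (0 : ℝ) ≤ M := Nat.cast_nonneg _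
    have h2 : (0 : ℝ) ≤ N := Nat.cast_nonneg _
    nlinarith
  have hM0 : (0 : ℝ) ≤ M := Nat.cast_nonneg _
  have hN0 : (0 : ℝ) ≤ N := Nat.cast_nonneg _
  have hDN : N * l / κe * N ≤ D := by
    rw [hDe]
    calc N * l / κe * N ≤ M * N := mul_le_mul_of_nonneg_right hM hN0
      _ ≤ (M + 1) * (N + 1) := by nlinarith
  have h1 : (3 + c) * (l * N) ≤ √(2 * (w₀ * b)) * √D := by
    rw [← Real.sqrt_mul (by positivity)]
    apply Real.le_sqrt_of_sq_le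
    have h2 : (9 + 2 * ε) * (κe * l) * (N * l / κe * N) ≤ 2 * (w₀ * b) * D := by
      apply mul_le_mul (by linarith) hDN (by positivity) (by positivity)
    have h3 : (9 + 2 * ε) * (κe * l) * (N * l / κe * N) = (9 + 2 * ε) * (l * N) ^ 2 := by
      field_simp
    rw [h3] at h2
    refine le_trans ?_ h2
    rw [mul_pow]
    exact mul_le_mul_of_nonneg_right hcε (by positivity)
  have h4 : κe * M + l * N ≤ 2 * (l * N) + κe := by
    have : κe * M ≤ κe * (N * l / κe + 1) := mul_le_mul_of_nonneg_left hM' hκ0.le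
    have h5 : κe * (N * l / κe + 1) = N * l + κe := by field_simp
    linarith
  have h6 : (3 * B + 1) ≤ 2 / 3 * c * (l * N) := by
    have h7 : 3 / 2 * (3 * B + 1) * B ≤ N * c := by rwa [div_le_iff₀ hc] at hN
    have h8 : 1 / B * (N * c) ≤ l * (N * c) := mul_le_mul_of_nonneg_right hl (by positivity)
    have h9 : 1 / B * (3 / 2 * (3 * B + 1) * B) ≤ 1 / B * (N * c) :=
      mul_le_mul_of_nonneg_left h7 (by positivity)
    have h10 : 1 / B * (3 / 2 * (3 * B + 1) * B) = 3 / 2 * (3 * B + 1) := by field_simp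
    nlinarith
  have h11 : κe * M + l * N - 2 / 3 * (√(2 * (w₀ * b)) * √D) + (w₀ + b) ≤ -1 := by nlinarith
  have h12 : (κe * M + l * N) * D - (2 / 3 * √(2 * (w₀ * b)) * (D * √D) - (w₀ + b) * D) =
      (κe * M + l * N - 2 / 3 * (√(2 * (w₀ * b)) * √D) + (w₀ + b)) * D := by ring
  rw [h12]
  nlinarith

/-- THE AUXILIARY FORM. -/
theorem ax (B ε : ℝ) (hB : 0 < B) (hε : 0 < ε) (d : ℕ) : ∃ (J : ℕ) (Λ₀ : ℝ), ∀ Λ : ℝ, Λ₀ ≤ Λ →
    ∀ (w₀ b κe l : ℝ), 1 / B ≤ w₀ → w₀ ≤ B → 1 / B ≤ b → b ≤ B → 1 / B ≤ κe → κe ≤ B →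
    1 / B ≤ l → l ≤ B → (9 / 2 + ε) * (κe * l) ≤ w₀ * b →
    ∀ (F : Frame) (ι : Type) [Fintype ι] (P : Pts ι) (U₁ U₂ : A) (κ θ r z : ι → ℝ),
      Dat F P U₁ U₂ B d (Real.exp (-(Λ * w₀))) (Real.exp (-(Λ * b))) (Real.exp (Λ * κe))
        (Real.exp (Λ * l)) κ θ r z → (∀ i, P.t i ≠ 0) → (∀ i, P.v i ≠ 0) →
      ∃ G : Finset ℤ[X][X], G.card ≤ J ∧
        (∀ g ∈ G, Irreducible g ∧ ∃ m n, m ≤ J ∧ n ≤ J ∧ Ex m n g) ∧
        ∀ i, ∃ g ∈ G, ∀ m n, Bd m n g → ev m n g (P.s i) (P.t i) (P.u i) (P.v i) = 0 := by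
  classical
  -- the constant `c`
  set c : ℝ := √(9 + 2 * ε) - 3 with hc
  have hc0 : 0 < c := by
    have : (3 : ℝ) < √(9 + 2 * ε) := by
      apply Real.lt_sqrt_of_sq_lt; nlinarith
    rw [hc]; linarith
  have hcε : (3 + c) ^ 2 ≤ 9 + 2 * ε := by
    have : 3 + c = √(9 + 2 * ε) := by rw [hc]; ring
    rw [this, Real.sq_sqrt (by positivity)]
  set N : ℕ := ⌈3 / 2 * (3 * B + 1) * B / c⌉₊ with hN
  set Mm : ℕ := ⌈(N : ℝ) * B * B⌉₊ + 1 with hMm
  choose Cn hCn0 hCn using fun M => aux M N B d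
  set Ct : ℝ := ∑ M ∈ Finset.range (Mm + 1), Cn M with hCt
  refine ⟨Mm + N, max 0 (Real.log Ct + 1), ?_⟩
  intro Λ hΛ w₀ b κe l hw1 hw2 hb1 hb2 hκ1 hκ2 hl1 hl2 h F ι _ P U₁ U₂ κ θ r z hd ht hv
  have hΛ0 : 0 ≤ Λ := (le_max_left _ _).trans hΛ
  have hΛ1 : Real.log Ct + 1 ≤ Λ := (le_max_right _ _).trans hΛ
  have hBi : 0 < 1 / B := by positivity
  have hw0 : 0 < w₀ := lt_of_lt_of_le hBi hw1
  have hb0 : 0 < b := lt_of_lt_of_le hBi hb1
  have hκ0 : 0 < κe := lt_of_lt_of_le hBi hκ1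
  have hl0 : 0 < l := lt_of_lt_of_le hBi hl1
  set M : ℕ := ⌈(N : ℝ) * l / κe⌉₊ with hM
  have hN0 : (0 : ℝ) ≤ N := Nat.cast_nonneg _
  have hMle : (M : ℝ) ≤ N * l / κe + 1 := (Nat.ceil_lt_add_one (by positivity)).le
  have hMMm : M ≤ Mm := by
    have h1 : (N : ℝ) * l / κe ≤ N * B * B := by
      have h2 : 1 / κe ≤ B := by
        rw [div_le_iff₀ hκ0]
        have := mul_le_mul_of_nonneg_left hκ1 hB.le
        have h3 : B * (1 / B) = 1 := by field_simp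
        linarith
      calc (N : ℝ) * l / κe = N * l * (1 / κe) := by ring
        _ ≤ N * l * B := mul_le_mul_of_nonneg_left h2 (by positivity)
        _ ≤ N * B * B := by
            apply mul_le_mul_of_nonneg_right _ hB.le
            exact mul_le_mul_of_nonneg_left hl2 hN0
    have h2 : M ≤ ⌈(N : ℝ) * B * B⌉₊ := Nat.ceil_le_ceil h1
    omega
  have hnum := num hc0 hcε hB hw2 hb2 (by positivity) hκ2 hκ0 hl1 h (M := M) (N := N)
    (Nat.le_ceil _) (Nat.le_ceil _) hMle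
  set D : ℕ := (M + 1) * (N + 1) with hD
  set Lw : ℝ := 2 / 3 * √(2 * (w₀ * b)) * ((D : ℝ) * √(D : ℝ)) - (w₀ + b) * (D : ℝ) with hLw
  -- the auxiliary form
  obtain ⟨f, hf0, hfb, hf⟩ := hCn M F ι P U₁ U₂ _ _ _ _ κ θ r z hd (Real.exp (-(Λ * Lw)))
    (Real.exp_pos _).le (by
      intro S hS
      have h1 : ∏ x ∈ S, (Real.exp (-(Λ * w₀)) ^ x.1 * Real.exp (-(Λ * b)) ^ x.2) =
          Real.exp (-(Λ * ∑ x ∈ S, (w₀ * x.1 + b * x.2))) := by
        rw [Finset.mul_sum, ← Finset.sum_neg_distrib, Real.exp_sum]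
        refine Finset.prod_congr rfl fun x _ => ?_
        rw [← Real.exp_nat_mul, ← Real.exp_nat_mul, ← Real.exp_add]
        congr 1; ring
      rw [h1, Real.exp_le_exp, neg_le_neg_iff]
      apply mul_le_mul_of_nonneg_left _ hΛ0
      have := low w₀ b hw0.le hb0.le S
      rw [hS] at this
      rw [hLw]
      rw [mul_assoc 2 w₀ b] at this
      exact this) (by
      have h1 : (Real.exp (Λ * κe) ^ M * Real.exp (Λ * l) ^ N) ^ ((M + 1) * (N + 1)) =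
          Real.exp (Λ * ((κe * M + l * N) * D)) := by
        rw [← Real.exp_nat_mul, ← Real.exp_nat_mul, ← Real.exp_add, ← Real.exp_nat_mul]
        congr 1; rw [hD]; push_cast; ring
      rw [h1, mul_assoc, ← Real.exp_add]
      have h2 : Λ * ((κe * M + l * N) * D) + -(Λ * Lw) =
          Λ * ((κe * M + l * N) * D - Lw) := by ring
      rw [h2]
      have h3 : Λ * ((κe * M + l * N) * D - Lw) ≤ -Λ := by
        have := mul_le_mul_of_nonneg_left hnum hΛ0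
        linarith
      have hCle : Cn M ≤ Ct := by
        rw [hCt]
        exact Finset.single_le_sum (f := Cn) (fun i _ => (hCn0 i).le)
          (Finset.mem_range.2 (by omega))
      have hCt0 : 0 < Ct := lt_of_lt_of_le (hCn0 M) hCle
      calc Cn M * Real.exp (Λ * ((κe * M + l * N) * D - Lw)) ≤ Ct * Real.exp (-Λ) :=
            mul_le_mul hCle (Real.exp_le_exp.2 h3) (Real.exp_pos _).le hCt0.le
        _ = Real.exp (Real.log Ct + -Λ) := by rw [Real.exp_add, Real.exp_log hCt0]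
        _ < 1 := by rw [Real.exp_lt_one_iff]; linarith)
  obtain ⟨G, hG1, hG2, hG3⟩ := fac hf0 hfb
  refine ⟨G, by omega, fun g hg => ?_, fun i => ?_⟩
  · obtain ⟨h1, m, n, hm, hn, hex⟩ := hG2 g hg
    exact ⟨h1, m, n, by omega, by omega, hex⟩
  · exact hG3 _ _ _ _ (ht i) (hv i) (hf i)

end Pool.Agent.Work.MP_f2148a_nt.M56.AX
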